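import Pool.Agent.Helper61.BL.LConC

/-!
# Package L7: the conclusion of the Lie algebra argument
-/

set_option autoImplicit false

open Polynomial Matrix Finset Filter

namespace Pool.Agent.Helper61.BL

open Pool.Agent.Helper62.BM Pool.Agent.Helper90.BM Pool.Agent.Helper61.BM

section bq

theorem Bq_map {F K : Type} [Field F] [Field K] (ψ : F →+* K) {n : ℕ}
    (Q : Matrix (Fin n) (Fin n) F) (κ v : Fin n → F) (x : F) :
    (Bq Q κ v x).map ψ = Bq (Q.map ψ) (fun j => ψ (κ j)) (fun j => ψ (v j)) (ψ x) := by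
  ext l m
  simp only [Bq, Matrix.map_apply, Matrix.of_apply]
  rw [map_mul, map_mul, map_inv₀, map_sub]

variable (U : Ultrafilter ℕ) {F : ℕ → Type} [∀ i, Field (F i)] {n : ℕ}

theorem mk_Bq (Q : ∀ i, Matrix (Fin n) (Fin n) (F i)) (κ v : ∀ i, Fin n → F i) (x : ∀ i, F i) :
    mkM U (fun i => Bq (Q i) (κ i) (v i) (x i)) =
      Bq (mkM U Q) (fun j => mk U fun i => κ i j) (fun j => mk U fun i => v i j) (mk U x) := by
  ext l m
  rw [mkM_apply]
  show mk U (fun i => Q i l m * κ i m * (x i - v i m)⁻¹) =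
    (mk U fun i => Q i l m) * (mk U fun i => κ i m) * (mk U x - mk U fun i => v i m)⁻¹
  have h1 : (fun i => Q i l m * κ i m * (x i - v i m)⁻¹) =
      (fun i => Q i l m) * (fun i => κ i m) *
        fun i => ((x - fun i => v i m : ∀ i, F i) i)⁻¹ := rfl
  rw [h1, map_mul, map_mul, mk_inv, map_sub]

theorem mk_smulM (c : ∀ i, F i) (M : ∀ i, Matrix (Fin n) (Fin n) (F i)) :
    mkM U (fun i => c i • M i) = mk U c • mkM U M := by
  ext a b
  rw [Matrix.smul_apply, mkM_apply, mkM_apply, smul_eq_mul, ← map_mul]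
  rfl

theorem mk_trace (M : ∀ i, Matrix (Fin n) (Fin n) (F i)) :
    (mkM U M).trace = mk U fun i => (M i).trace := by
  have h4 : (fun i => (M i).trace) = fun i => ∑ a, (fun i => M i a a) i := rfl
  rw [h4, mk_sum]
  rfl

theorem mk_mul_apply (M N : ∀ i, Matrix (Fin n) (Fin n) (F i)) (a b : Fin n) :
    (mkM U M * mkM U N) a b = mk U fun i => (M i * N i) a b := by
  rw [← mkM_mul]
  rfl

end bq

section lift

variable (U : Ultrafilter ℕ) {C : ℕ → Type} [∀ i, Field (C i)] {n : ℕ}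

/-- lifting a matrix of polynomials -/
theorem lift_poly (η : Matrix (Fin n) (Fin n) (UP U C)[X]) :
    ∃ q : Fin n → Fin n → Polynomial (∀ i, C i), ∀ a b, (q a b).map (mk U) = η a b := by
  choose q hq using fun s : Fin n × Fin n =>
    Polynomial.map_surjective (mk U (F := C)) (mk_surj U) (η s.1 s.2)
  exact ⟨fun a b => q (a, b), fun a b => hq (a, b)⟩

theorem eval_up (q : Polynomial (∀ i, C i)) (c : ∀ i, C i) :
    (q.map (mk U)).eval (mk U c) =
      mk U fun i => (q.map (Pi.evalRingHom C i)).eval (c i) := by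
  rw [Polynomial.eval_map]
  have h1 := Polynomial.hom_eval₂ q (RingHom.id _) (mk U (F := C)) c
  rw [RingHom.comp_id] at h1
  rw [← h1]
  congr 1
  funext i
  rw [Polynomial.eval_map]
  have h2 := Polynomial.hom_eval₂ q (RingHom.id _) (Pi.evalRingHom C i) c
  rw [RingHom.comp_id] at h2
  exact h2

end lift

/-- The case of the trivial change of basis. -/
theorem core (hRes : L_Res) (hPS : L_PS) (hLI : L_LI) (hComm : L_Comm) (hVan : L_Van)
    (hLie : S_Lie) (g : ℕ) (hg : 1 ≤ g) (U : Ultrafilter ℕ) (C : ℕ → Type) [∀ i, Field (C i)]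
    (p : ℕ → ℕ) [∀ i, Fact (p i).Prime] [∀ i, CharP (C i) (p i)]
    (hp : ∀ N : ℕ, ∀ᶠ i in (U : Filter ℕ), N < p i)
    (Q : ∀ i, Matrix (Fin (2 * g)) (Fin (2 * g)) (C i)) (κ v : ∀ i, Fin (2 * g) → C i)
    (hOk : ∀ i, Ok (Q i) (κ i) (v i)) (hE1 : ∀ m : ℕ, ∀ᶠ i in (U : Filter ℕ), E1 (Q i) (κ i) m)
    (hE2 : ∀ m : ℕ, 1 ≤ m → ∀ᶠ i in (U : Filter ℕ), E2 (Q i) (κ i) m) (Df : ∀ i, Der (KX (C i)))
    (hDf : ∀ i, IsDer (Df i)) (f : KX (UP U C) →+* UP U fun i => KX (C i))
    (hf : ∀ q : Polynomial (∀ i, C i), f (ι _ (q.map (mk U))) =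
        mk U fun i => ι (C i) (q.map (Pi.evalRingHom C i)))
    (hfD : ∀ (Dk : Der (KX (UP U C))), IsDer Dk → ∀ z, f (Dk z) = der U Df (f z))
    (A : Matrix (Fin (2 * g)) (Fin (2 * g)) (KX (UP U C)))
    (hA : A * (mkM U Q).map (cst (UP U C)) + (mkM U Q).map (cst (UP U C)) * Aᵀ = 0)
    (θ : Matrix (Fin (2 * g)) (Fin (2 * g)) (KX (UP U C)))
    (hθ : (θ.map f * mkM U (fun i => pcv (Df i) (BqX (Q i) (κ i) (v i)) (p i))).trace = 0) :
    (θ * A).trace = 0 := by
  -- characteristic zero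
  have hcast : ∀ (i : ℕ) (m : ℕ), 1 ≤ m → m < p i → ((m : ℕ) : C i) ≠ 0 := by
    intro i m h1 h2 h3
    rw [CharP.cast_eq_zero_iff (C i) (p i)] at h3
    exact absurd (Nat.le_of_dvd h1 h3) (not_le.2 h2)
  have hC0 : CharZero (UP U C) := Helper62.BM.charZero U fun m hm => by
    filter_upwards [hp m] with i hi
    exact hcast i m hm hi
  have hDp : ∀ (i : ℕ) (c : KX (C i)), (⇑(Df i))^[p i] c = 0 := fun i c => isDer_iter (hDf i) (p i) c
  have hOkh := ok_up U hOk
  -- the values of `f`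
  have hft : f (tX (UP U C)) = mk U fun i => tX (C i) := by
    have := hf X
    rw [Polynomial.map_X] at this
    rw [this]
    congr 1
    funext i
    rw [Polynomial.map_X]
  have hfc : ∀ a : ∀ i, C i, f (cst (UP U C) (mk U a)) = mk U fun i => cst (C i) (a i) := by
    intro a
    have := hf (Polynomial.C a)
    rw [Polynomial.map_C] at this
    show f (ι _ (Polynomial.C (mk U a))) = _
    rw [this]
    congr 1
    funext i
    rw [Polynomial.map_C]
    rfl
  have hfB : (BqX (mkM U Q) (fun j => mk U fun i => κ i j) fun j => mk U fun i => v i j).map f =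
      mkM U fun i => BqX (Q i) (κ i) (v i) := by
    have h1 : mkM U (fun i => BqX (Q i) (κ i) (v i)) =
        mkM U fun i => Bq ((Q i).map (cst (C i))) (fun j => cst (C i) (κ i j))
          (fun j => cst (C i) (v i j)) (tX (C i)) := rfl
    have h2 : ((mkM U Q).map (cst (UP U C))).map f = mkM U fun i => (Q i).map (cst (C i)) :=
      Matrix.ext fun a b => hfc fun i => Q i a b
    rw [h1, mk_Bq]
    unfold BqX
    rw [Bq_map, h2, hft]
    congr 1
    · funext j
      exact hfc fun i => κ i j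
    · funext j
      exact hfc fun i => v i j
  obtain ⟨Dk, hDk, -⟩ := Pool.Agent.Helper12.BM.frac (UP U C)
  refine core1 hPS hLI hComm hVan hLie g hg (UP U C) (mkM U Q) (fun j => mk U fun i => κ i j)
    (fun j => mk U fun i => v i j) hOkh (fun m => e1_up U m (hE1 m))
    (fun m hm => e2_up U m (hE2 m hm)) (UP U fun i => KX (C i)) f Dk hDk (der U Df) (hfD Dk hDk)
    (mkM U fun i => pcv (Df i) (BqX (Q i) (κ i) (v i)) (p i)) ?_ ?_ ⟨0, by omega⟩ ?_ A hA θ hθ
  · rw [hfB, ← mkM_NB, ← BM.mk_zero U]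
    congr 1
    funext i
    exact hor_pcv (p i) (Df i) (hDp i) _
  · intro W hW η hη
    rw [hfB] at hW
    exact dpm U (fun i => KX (C i)) p Df hDp (2 * g) (fun i => BqX (Q i) (κ i) (v i)) W hW η hη
  · intro η hη
    set j : Fin (2 * g) := ⟨0, by omega⟩ with hj
    obtain ⟨q, hq⟩ := lift_poly U η
    set ηi : ∀ i, Matrix (Fin (2 * g)) (Fin (2 * g)) (C i)[X] :=
      fun i => Matrix.of fun a b => (q a b).map (Pi.evalRingHom C i) with hηi
    have h1 : (mkM U fun i => (ηi i).map (ι (C i))) = (η.map (ι (UP U C))).map f := by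
      refine Matrix.ext fun a b => ?_
      rw [mkM_apply, Matrix.map_apply, Matrix.map_apply, ← hq a b, hf]
      rfl
    have h2 : ∀ᶠ i in (U : Filter ℕ),
        ((ηi i).map (ι (C i)) * pcv (Df i) (BqX (Q i) (κ i) (v i)) (p i)).trace = 0 := by
      rw [← mk_eq_zero]
      rw [← h1, ← mkM_mul, mk_trace] at hη
      exact hη
    have h5 : ∀ᶠ i in (U : Filter ℕ),
        (((ηi i).map (Polynomial.eval (v i j))) * Q i) j j = 0 := by
      filter_upwards [h2, hp 2] with i h3 h4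
      have hQi : Q i j j = 0 := skew_diag (hOk i).1 (by
        have := hcast i 2 (by norm_num) h4
        exact_mod_cast this) j
      have h6 := hRes (C i) (p i) (Df i) (hDf i) (2 * g) (BqX (Q i) (κ i) (v i))
        (Mq (Q i) (κ i) (v i)) (∏ m ∈ univ.erase j, (X - Polynomial.C (v i m))) (v i j)
        (ev_erase (hOk i).2.2.2.2 j) (fun a b => by rw [← wv_eq, w_Bq])
        (Mq_sq (Q i) (κ i) (v i) j hQi) (ηi i) h3
      rw [Mq_tr] at h6
      exact (mul_eq_zero.1 h6).resolve_right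
        (mul_ne_zero ((hOk i).2.2.2.1 j) (ev_erase (hOk i).2.2.2.2 j))
    have h6 : η.map (Polynomial.eval (mk U fun i => v i j)) =
        mkM U fun i => (ηi i).map (Polynomial.eval (v i j)) := by
      refine Matrix.ext fun a b => ?_
      rw [Matrix.map_apply, ← hq a b, eval_up, mkM_apply]
      rfl
    rw [h6, mk_mul_apply, mk_eq_zero]
    exact h5

section conj

variable {F : Type} [Field F] {n : ℕ}

theorem conj_tr (P θ ψ : Matrix (Fin n) (Fin n) F) :
    (θ * (P * ψ * P⁻¹)).trace = (P⁻¹ * θ * P * ψ).trace := by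
  have h1 : θ * (P * ψ * P⁻¹) = θ * P * ψ * P⁻¹ := by simp only [Matrix.mul_assoc]
  rw [h1, Matrix.trace_mul_comm]
  simp only [Matrix.mul_assoc]

theorem conj_map {K L : Type} [Field K] [Field L] (f : K →+* L)
    {P : Matrix (Fin n) (Fin n) K} (hP : P.det ≠ 0) (θ : Matrix (Fin n) (Fin n) K)
    (ψ : Matrix (Fin n) (Fin n) L) :
    (θ.map f * (P.map f * ψ * (P.map f)⁻¹)).trace = ((P⁻¹ * θ * P).map f * ψ).trace := by
  rw [conj_tr, ← inv_map f _ hP, ← Matrix.map_mul, ← Matrix.map_mul]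

theorem map3 {K L : Type} [Field K] [Field L] (f : K →+* L) (P Q : Matrix (Fin n) (Fin n) K) :
    (P * Q * Pᵀ).map f = P.map f * Q.map f * (P.map f)ᵀ := by
  rw [Matrix.map_mul, Matrix.map_mul, Matrix.transpose_map]

theorem conj_mul {P : Matrix (Fin n) (Fin n) F} (hP : P.det ≠ 0) (θ A : Matrix (Fin n) (Fin n) F) :
    (P⁻¹ * θ * P * (P⁻¹ * A * P)).trace = (θ * A).trace := by
  have h0 := Matrix.mul_nonsing_inv P (isUnit_iff_ne_zero.2 hP)
  have h1 : P⁻¹ * θ * P * (P⁻¹ * A * P) = P⁻¹ * (θ * (P * P⁻¹) * A * P) := by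
    simp only [Matrix.mul_assoc]
  rw [h1, h0, Matrix.mul_one, Matrix.trace_mul_comm, Matrix.mul_assoc, h0, Matrix.mul_one]

theorem conj_form {P Q A : Matrix (Fin n) (Fin n) F} (hP : P.det ≠ 0)
    (h : A * (P * Q * Pᵀ) + (P * Q * Pᵀ) * Aᵀ = 0) :
    (P⁻¹ * A * P) * Q + Q * (P⁻¹ * A * P)ᵀ = 0 := by
  have h0 := Matrix.nonsing_inv_mul P (isUnit_iff_ne_zero.2 hP)
  have h2 : Pᵀ * P⁻¹ᵀ = 1 := by rw [← Matrix.transpose_mul, h0, Matrix.transpose_one]
  have h1 : P⁻¹ * (A * (P * Q * Pᵀ) + (P * Q * Pᵀ) * Aᵀ) * P⁻¹ᵀ = 0 := by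
    rw [h, Matrix.mul_zero, Matrix.zero_mul]
  rw [← h1, Matrix.mul_add, Matrix.add_mul]
  congr 1
  · calc P⁻¹ * A * P * Q = P⁻¹ * A * P * Q * (Pᵀ * P⁻¹ᵀ) := by rw [h2, Matrix.mul_one]
      _ = _ := by simp only [Matrix.mul_assoc]
  · calc Q * (P⁻¹ * A * P)ᵀ = (P⁻¹ * P) * Q * (P⁻¹ * A * P)ᵀ := by rw [h0, Matrix.one_mul]
      _ = _ := by simp only [Matrix.transpose_mul, Matrix.mul_assoc]

end conj

/-- Package L7. -/
theorem l_con (hRes : L_Res) (hPS : L_PS) (hLI : L_LI) (hComm : L_Comm) (hVan : L_Van)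
    (hLie : S_Lie) : L_Con := by
  intro g hg U C _ p _ _ hp Q P κ v hOk hP hE1 hE2 Df hDf f hf hfD A hA θ hθ
  have hfc : ∀ a : ∀ i, C i, f (cst (UP U C) (mk U a)) = mk U fun i => cst (C i) (a i) := by
    intro a
    have := hf (Polynomial.C a)
    rw [Polynomial.map_C] at this
    show f (ι _ (Polynomial.C (mk U a))) = _
    rw [this]
    congr 1
    funext i
    rw [Polynomial.map_C]
    rfl
  have hdet : ∀ (F K : Type) [Field F] [Field K] (ψ : F →+* K)
      (M : Matrix (Fin (2 * g)) (Fin (2 * g)) F), M.det ≠ 0 → (M.map ψ).det ≠ 0 := by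
    intro F K _ _ ψ M hM h
    have h1 := RingHom.map_det ψ M
    rw [RingHom.mapMatrix_apply, h] at h1
    exact hM ((map_eq_zero _).1 h1)
  have hPh : (mkM U P).det ≠ 0 := mkM_det U P hP
  have hPk : ((mkM U P).map (cst (UP U C))).det ≠ 0 := hdet _ _ _ _ hPh
  have hPf : ((mkM U P).map (cst (UP U C))).map f = mkM U fun i => (P i).map (cst (C i)) :=
    Matrix.ext fun a b => hfc fun i => P i a b
  have hPi : ∀ i, ((P i).map (cst (C i))).det ≠ 0 := fun i => hdet _ _ _ _ (hP i)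
  have hgauge : ∀ i, pcv (Df i) ((P i).map (cst (C i)) * BqX (Q i) (κ i) (v i) *
      ((P i).map (cst (C i)))⁻¹) (p i) = (P i).map (cst (C i)) *
        pcv (Df i) (BqX (Q i) (κ i) (v i)) (p i) * ((P i).map (cst (C i)))⁻¹ := fun i =>
    gauge (p i) (Df i) (isDer_iter (hDf i) (p i)) _ _ (hPi i) fun a b => D_κ (hDf i) _
  have hψ : (mkM U fun i => pcv (Df i) ((P i).map (cst (C i)) * BqX (Q i) (κ i) (v i) *
      ((P i).map (cst (C i)))⁻¹) (p i)) =
      ((mkM U P).map (cst (UP U C))).map f *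
        (mkM U fun i => pcv (Df i) (BqX (Q i) (κ i) (v i)) (p i)) *
        (((mkM U P).map (cst (UP U C))).map f)⁻¹ := by
    rw [hPf, ← mkM_inv U _ hPi, ← mkM_mul, ← mkM_mul]
    congr 1
    funext i
    exact hgauge i
  rw [hψ, conj_map f hPk] at hθ
  have hQP : (mkM U fun i => P i * Q i * (P i)ᵀ).map (cst (UP U C)) =
      (mkM U P).map (cst (UP U C)) * (mkM U Q).map (cst (UP U C)) *
        ((mkM U P).map (cst (UP U C)))ᵀ := by
    rw [mkM_mul, mkM_mul, mkM_transpose]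
    exact map3 (cst (UP U C)) (mkM U P) (mkM U Q)
  rw [hQP] at hA
  have h1 := core hRes hPS hLI hComm hVan hLie g hg U C p hp Q κ v hOk hE1 hE2 Df hDf f hf hfD
    _ (conj_form hPk hA) _ hθ
  rwa [conj_mul hPk] at h1

end Pool.Agent.Helper61.BL
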