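import Pool.Agent.Helper61.BM.ConB
import Pool.Agent.Helper62.BM.LStm

/-!
# Package L7: preparations
-/

set_option autoImplicit false

open Polynomial Matrix Finset Filter

namespace Pool.Agent.Helper61.BL

open Pool.Agent.Helper62.BM Pool.Agent.Helper90.BM Pool.Agent.Helper61.BM

/-! ## The double annihilator -/

section ann

variable {k L : Type} [Field k] [Field L] (f : k →+* L) {n : ℕ}

/-- The double annihilator under an extension of the field. -/
theorem double_ann (Θ : Submodule k (Matrix (Fin n) (Fin n) k)) (η : Matrix (Fin n) (Fin n) L)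
    (h : ∀ A : Matrix (Fin n) (Fin n) k, (∀ θ ∈ Θ, (θ * A).trace = 0) →
      (η * A.map f).trace = 0) :
    η ∈ Submodule.span L {η : Matrix (Fin n) (Fin n) L | ∃ θ ∈ Θ, η = θ.map f} := by
  classical
  obtain ⟨Θ', hΘ'⟩ := Θ.exists_isCompl
  set P : Matrix (Fin n) (Fin n) k →ₗ[k] Matrix (Fin n) (Fin n) k :=
    Θ.subtype ∘ₗ Θ.projectionOnto Θ' hΘ' with hP
  have hP1 : ∀ θ ∈ Θ, P θ = θ := by
    intro θ hθ
    have := Submodule.projectionOnto_apply_left hΘ' ⟨θ, hθ⟩
    rw [hP, LinearMap.comp_apply]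
    exact congrArg Subtype.val this
  have hP2 : ∀ θ, P θ ∈ Θ := fun θ => Subtype.mem _
  set E : Fin n → Fin n → Matrix (Fin n) (Fin n) k := fun a b => Matrix.single a b 1 with hE
  have hsum : ∀ θ : Matrix (Fin n) (Fin n) k, θ = ∑ a, ∑ b, θ a b • E a b := by
    intro θ
    have := Matrix.matrix_eq_sum_single θ
    rw [this]
    refine Finset.sum_congr rfl fun a _ => Finset.sum_congr rfl fun b _ => ?_
    rw [hE]
    simp only
    rw [Matrix.smul_single, smul_eq_mul, mul_one]
    congr 1
    rw [← this]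
  have key : η = ∑ a, ∑ b, η a b • (P (E a b)).map f := by
    ext c d
    set A : Matrix (Fin n) (Fin n) k := Matrix.of fun b a => (E a b - P (E a b)) c d with hA
    have h1 : ∀ θ : Matrix (Fin n) (Fin n) k, (θ * A).trace = (θ - P θ) c d := by
      intro θ
      have h2 : θ - P θ = ∑ a, ∑ b, θ a b • (E a b - P (E a b)) := by
        conv_lhs => rw [hsum θ]
        rw [map_sum, ← Finset.sum_sub_distrib]
        refine Finset.sum_congr rfl fun a _ => ?_
        rw [map_sum, ← Finset.sum_sub_distrib]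
        refine Finset.sum_congr rfl fun b _ => ?_
        rw [map_smul, smul_sub]
      rw [h2, Matrix.trace]
      simp only [Matrix.diag_apply, Matrix.mul_apply, Matrix.sum_apply, Matrix.smul_apply,
        smul_eq_mul]
      rfl
    have h3 := h A fun θ hθ => by rw [h1, hP1 θ hθ, sub_self]; rfl
    have h4 : (η * A.map f).trace = η c d - (∑ a, ∑ b, η a b • (P (E a b)).map f) c d := by
      have h5 : η c d = ∑ a, ∑ b, η a b * f (E a b c d) := by
        have : ∀ a b, f (E a b c d) = if a = c ∧ b = d then 1 else 0 := by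
          intro a b
          rw [hE]
          simp only [Matrix.single_apply]
          split_ifs
          · exact map_one f
          · exact map_zero f
        simp only [this]
        rw [Finset.sum_eq_single c, Finset.sum_eq_single d]
        · simp
        · intro b _ hb
          simp [hb]
        · intro h
          exact absurd (Finset.mem_univ _) h
        · intro a _ ha
          simp [ha]
        · intro h
          exact absurd (Finset.mem_univ _) h
      rw [h5, Matrix.trace]
      simp only [Matrix.diag_apply, Matrix.mul_apply, Matrix.sum_apply, Matrix.smul_apply,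
        smul_eq_mul, Matrix.map_apply, hA, Matrix.of_apply, Matrix.sub_apply, map_sub, mul_sub,
        Finset.sum_sub_distrib]
    rw [h3] at h4
    exact (sub_eq_zero.1 h4.symm)
  rw [key]
  refine Submodule.sum_mem _ fun a _ => Submodule.sum_mem _ fun b _ => Submodule.smul_mem _ _ ?_
  exact Submodule.subset_span ⟨_, hP2 _, rfl⟩

/-- The span of a stable subspace is stable. -/
theorem span_stable (Dk : Der k) (D : Der L) (hf : ∀ z, f (Dk z) = D (f z))
    (Bk : Matrix (Fin n) (Fin n) k) (Θ : Submodule k (Matrix (Fin n) (Fin n) k))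
    (hΘ : ∀ θ ∈ Θ, NB Dk Bk θ ∈ Θ) :
    ∀ η ∈ Submodule.span L {η : Matrix (Fin n) (Fin n) L | ∃ θ ∈ Θ, η = θ.map f},
      NB D (Bk.map f) η ∈
        Submodule.span L {η : Matrix (Fin n) (Fin n) L | ∃ θ ∈ Θ, η = θ.map f} := by
  intro η hη
  induction hη using Submodule.span_induction with
  | mem η h =>
    obtain ⟨θ₁, h1, rfl⟩ := h
    have e : (NB Dk Bk θ₁).map f = NB D (Bk.map f) (θ₁.map f) := by
      unfold NB
      rw [← Matrix.map_mul, ← Matrix.map_mul]
      ext i j
      simp only [Matrix.map_apply, Matrix.sub_apply, Matrix.add_apply, map_sub, map_add, hf]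
    exact Submodule.subset_span ⟨NB Dk Bk θ₁, hΘ _ h1, e.symm⟩
  | zero => rw [NB_zero]; exact Submodule.zero_mem _
  | add x y _ _ hx hy => rw [NB_add]; exact Submodule.add_mem _ hx hy
  | smul c x hx' hx =>
    rw [NB_smul]
    exact Submodule.add_mem _ (Submodule.smul_mem _ _ hx') (Submodule.smul_mem _ _ hx)

end ann

/-! ## Power series -/

section ps

variable {k : Type} [Field k] {n : ℕ}

theorem tay_C (c : k) (a : k) : tay c (Polynomial.C a) = PowerSeries.C a := by
  unfold tay
  rw [Polynomial.coe_eval₂RingHom, Polynomial.eval₂_C]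

theorem tay_X (c : k) : tay c X = PowerSeries.X + PowerSeries.C c := by
  unfold tay
  rw [Polynomial.coe_eval₂RingHom, Polynomial.eval₂_X]

theorem tay_eq (c : k) (q : k[X]) : tay c q = ((taylor c q : k[X]) : PowerSeries k) := by
  induction q using Polynomial.induction_on' with
  | add p q hp hq => rw [map_add, hp, hq, map_add, Polynomial.coe_add]
  | monomial m a =>
    rw [← Polynomial.C_mul_X_pow_eq_monomial, map_mul, map_pow, tay_C, tay_X,
      Polynomial.taylor_mul, Polynomial.taylor_C, Polynomial.taylor_pow, Polynomial.taylor_X,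
      Polynomial.coe_mul, Polynomial.coe_pow, Polynomial.coe_add, Polynomial.coe_X,
      Polynomial.coe_C, Polynomial.coe_C]

theorem tay_inj (c : k) : Function.Injective (tay c) := by
  intro a b h
  rw [tay_eq, tay_eq, Polynomial.coe_inj] at h
  exact Polynomial.taylor_injective c h

theorem tay_coeff0 (c : k) (q : k[X]) : PowerSeries.constantCoeff (tay c q) = q.eval c := by
  rw [tay_eq, Polynomial.constantCoeff_coe, Polynomial.taylor_coeff_zero]

theorem tay_der (c : k) (q : k[X]) :
    PowerSeries.derivative k (tay c q) = tay c (derivative q) := by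
  induction q using Polynomial.induction_on' with
  | add p q hp hq => rw [map_add, map_add, hp, hq, map_add, map_add]
  | monomial m a =>
    rw [← Polynomial.C_mul_X_pow_eq_monomial, map_mul, map_pow, tay_C, tay_X,
      Derivation.leibniz, Derivation.leibniz_pow, Polynomial.derivative_C_mul_X_pow, map_mul,
      map_pow, tay_C, tay_X]
    have h1 : PowerSeries.derivative k (PowerSeries.C a) = 0 := PowerSeries.derivative_C
    have h2 : PowerSeries.derivative k (PowerSeries.X + PowerSeries.C c) = 1 := by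
      rw [map_add, PowerSeries.derivative_C, add_zero]
      exact PowerSeries.derivative_X
    rw [h1, h2, map_mul, map_natCast]
    simp only [smul_eq_mul, mul_zero, add_zero, nsmul_eq_mul, mul_one]
    ring

theorem D_dot (D : Derivation k (PowerSeries k) (PowerSeries k)) (u v : Fin n → PowerSeries k) :
    D (u ⬝ᵥ v) = (fun i => D (u i)) ⬝ᵥ v + u ⬝ᵥ fun i => D (v i) := by
  simp only [dotProduct, map_sum, Derivation.leibniz, smul_eq_mul]
  rw [← Finset.sum_add_distrib]
  refine Finset.sum_congr rfl fun l _ => ?_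
  ring

theorem D_mulVec (D : Derivation k (PowerSeries k) (PowerSeries k))
    (A : Matrix (Fin n) (Fin n) (PowerSeries k)) (v : Fin n → PowerSeries k) :
    (fun i => D ((A *ᵥ v) i)) = A.map D *ᵥ v + A *ᵥ fun i => D (v i) := by
  funext i
  simp only [Matrix.mulVec, Pi.add_apply]
  rw [D_dot]
  rfl

/-- the diagonal of `w B` -/
noncomputable def dl (κ v : Fin n → k) (j : Fin n) : k[X] :=
  Polynomial.C (κ j) * ∏ m ∈ univ.erase j, (X - Polynomial.C (v m))

theorem Mq_eq (Q : Matrix (Fin n) (Fin n) k) (κ v : Fin n → k) :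
    Mq Q κ v = Q.map Polynomial.C * Matrix.diagonal (dl κ v) := by
  refine Matrix.ext fun i j => ?_
  rw [Matrix.mul_diagonal]
  show Polynomial.C (Q i j * κ j) * ∏ m ∈ univ.erase j, (X - Polynomial.C (v m)) =
    Polynomial.C (Q i j) * (Polynomial.C (κ j) * ∏ m ∈ univ.erase j, (X - Polynomial.C (v m)))
  rw [map_mul, mul_assoc]

theorem Mq_tay (c : k) (Q : Matrix (Fin n) (Fin n) k) (κ v : Fin n → k) :
    (Mq Q κ v).map (tay c) =
      Q.map (PowerSeries.C (R := k)) * Matrix.diagonal fun j => tay c (dl κ v j) := by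
  rw [Mq_eq, Matrix.map_mul, Matrix.map_map, Matrix.diagonal_map (map_zero _)]
  congr 1
  ext i j
  rw [Matrix.map_apply, Matrix.map_apply, Function.comp_apply, tay_C]

theorem hor_vec {Q : Matrix (Fin n) (Fin n) k} {κ v : Fin n → k} {c : k}
    {x : Fin n → PowerSeries k} (hx : IsHor Q κ v c x) :
    (tay c (wv v) • fun a => PowerSeries.derivative k (x a)) = -((Mq Q κ v).map (tay c) *ᵥ x) := by
  funext a
  rw [Pi.neg_apply, Pi.smul_apply, smul_eq_mul]
  exact eq_neg_of_add_eq_zero_left (hx a)

theorem xi_vec {Q : Matrix (Fin n) (Fin n) k} {κ v : Fin n → k} (hQ : Qᵀ = -Q) (hQd : Q.det ≠ 0)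
    {c : k} {x : Fin n → PowerSeries k} (hx : IsHor Q κ v c x) :
    (tay c (wv v) • fun a => PowerSeries.derivative k (xi Q x a)) =
      ((Mq Q κ v).map (tay c))ᵀ *ᵥ xi Q x := by
  set Qc := Q.map (PowerSeries.C (R := k)) with hQc
  set Qi := (Q⁻¹).map (PowerSeries.C (R := k)) with hQi
  have hu := isUnit_iff_ne_zero.2 hQd
  have h1 : Qi * Qc = 1 := by
    rw [hQi, hQc, ← Matrix.map_mul, Matrix.nonsing_inv_mul _ hu,
      Matrix.map_one _ (map_zero _) (map_one _)]
  have h2 : Qc * Qi = 1 := by
    rw [hQi, hQc, ← Matrix.map_mul, Matrix.mul_nonsing_inv _ hu,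
      Matrix.map_one _ (map_zero _) (map_one _)]
  have h3 : Qcᵀ = -Qc := by
    rw [hQc, ← Matrix.transpose_map, hQ]
    ext i j
    simp
  have hxi : xi Q x = Qi *ᵥ x := rfl
  have hxx : x = Qc *ᵥ xi Q x := by
    rw [hxi, Matrix.mulVec_mulVec, h2, Matrix.one_mulVec]
  have h4 : (fun a => PowerSeries.derivative k (xi Q x a)) =
      Qi *ᵥ fun a => PowerSeries.derivative k (x a) := by
    rw [hxi, D_mulVec]
    have : Qi.map (PowerSeries.derivative k) = 0 := by
      ext i j
      rw [Matrix.map_apply, hQi, Matrix.map_apply, PowerSeries.derivative_C]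
      rfl
    rw [this, Matrix.zero_mulVec, zero_add]
  rw [h4, ← Matrix.mulVec_smul, hor_vec hx, Mq_tay, ← hQc, Matrix.mulVec_neg,
    Matrix.mulVec_mulVec, ← Matrix.mul_assoc, h1, Matrix.one_mul, Matrix.transpose_mul, h3,
    Matrix.diagonal_transpose, Matrix.mul_neg, Matrix.neg_mulVec, ← Matrix.mulVec_mulVec,
    ← hxx]

/-- `w (ξᵀ θ x)' = ξᵀ (w ∇ θ) x` -/
theorem star {Q : Matrix (Fin n) (Fin n) k} {κ v : Fin n → k} (hQ : Qᵀ = -Q) (hQd : Q.det ≠ 0)
    {c : k} {x : Fin n → PowerSeries k} (hx : IsHor Q κ v c x)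
    (θ : Matrix (Fin n) (Fin n) k[X]) :
    tay c (wv v) * PowerSeries.derivative k (xi Q x ⬝ᵥ (θ.map (tay c) *ᵥ x)) =
      xi Q x ⬝ᵥ ((wD Q κ v θ).map (tay c) *ᵥ x) := by
  set T := θ.map (tay c) with hT
  set M := (Mq Q κ v).map (tay c) with hM
  have h1 : T.map (PowerSeries.derivative k) = (θ.map fun q => derivative q).map (tay c) := by
    ext i j
    simp only [Matrix.map_apply, hT, tay_der]
  have h2 : (wD Q κ v θ).map (tay c) =
      tay c (wv v) • T.map (PowerSeries.derivative k) + M * T - T * M := by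
    rw [h1]
    unfold wD
    ext i j
    rw [Matrix.map_apply, Matrix.sub_apply, Matrix.add_apply, map_sub, map_add, Matrix.smul_apply,
      smul_eq_mul, map_mul, Matrix.sub_apply, Matrix.add_apply, Matrix.smul_apply, smul_eq_mul,
      hM, hT, ← Matrix.map_mul, ← Matrix.map_mul]
    rfl
  set x' : Fin n → PowerSeries k := fun i => PowerSeries.derivative k (x i) with hx'
  set ξ := xi Q x with hξ
  have h3 : tay c (wv v) * ((fun i => PowerSeries.derivative k (ξ i)) ⬝ᵥ (T *ᵥ x)) =
      ξ ⬝ᵥ (M *ᵥ (T *ᵥ x)) := by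
    rw [← smul_eq_mul, ← smul_dotProduct, xi_vec hQ hQd hx, Matrix.mulVec_transpose,
      ← Matrix.dotProduct_mulVec]
  have h4 : tay c (wv v) * (ξ ⬝ᵥ (T *ᵥ x')) = - (ξ ⬝ᵥ (T *ᵥ (M *ᵥ x))) := by
    rw [← smul_eq_mul, ← dotProduct_smul, ← Matrix.mulVec_smul, hor_vec hx, Matrix.mulVec_neg,
      dotProduct_neg]
  have h5 : tay c (wv v) * (ξ ⬝ᵥ (T.map (PowerSeries.derivative k) *ᵥ x)) =
      ξ ⬝ᵥ ((tay c (wv v) • T.map (PowerSeries.derivative k)) *ᵥ x) := by
    rw [Matrix.smul_mulVec, dotProduct_smul, smul_eq_mul]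
  rw [h2, D_dot, D_mulVec, mul_add, h3, dotProduct_add, mul_add, h5, h4, Matrix.sub_mulVec,
    Matrix.add_mulVec, ← Matrix.mulVec_mulVec, ← Matrix.mulVec_mulVec, dotProduct_sub,
    dotProduct_add]
  ring

end ps

end Pool.Agent.Helper61.BL
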