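import Pool.Agent.Helper61.BL.LConA

/-!
# Package L7: rational functions and ultraproducts
-/

set_option autoImplicit false

open Polynomial Matrix Finset Filter

namespace Pool.Agent.Helper61.BL

open Pool.Agent.Helper62.BM Pool.Agent.Helper90.BM Pool.Agent.Helper61.BM

section bq

variable {k : Type} [Field k] {n : ℕ}

theorem ι_inj : Function.Injective (ι k) := IsFractionRing.injective k[X] (KX k)

theorem wv_eq (v : Fin n → k) (j : Fin n) :
    wv v = (X - Polynomial.C (v j)) * ∏ m ∈ univ.erase j, (X - Polynomial.C (v m)) :=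
  (Finset.mul_prod_erase _ _ (Finset.mem_univ j)).symm

theorem wv_ne (v : Fin n → k) : wv v ≠ 0 :=
  Finset.prod_ne_zero_iff.2 fun _ _ => Polynomial.X_sub_C_ne_zero _

theorem ev_erase {v : Fin n → k} (hv : Function.Injective v) (j : Fin n) :
    (∏ m ∈ univ.erase j, (X - Polynomial.C (v m))).eval (v j) ≠ 0 := by
  rw [Polynomial.eval_prod, Finset.prod_ne_zero_iff]
  intro m hm
  rw [Polynomial.eval_sub, Polynomial.eval_X, Polynomial.eval_C, sub_ne_zero]
  exact fun h => (Finset.ne_of_mem_erase hm) (hv h).symm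

theorem w_Bq (Q : Matrix (Fin n) (Fin n) k) (κ v : Fin n → k) (i j : Fin n) :
    ι k (wv v) * BqX Q κ v i j = ι k (Mq Q κ v i j) := by
  have h0 : ι k (X - Polynomial.C (v j)) ≠ 0 := fun h =>
    Polynomial.X_sub_C_ne_zero (v j) (ι_inj (h.trans (map_zero _).symm))
  have h1 : BqX Q κ v i j = ι k (Polynomial.C (Q i j)) * ι k (Polynomial.C (κ j)) *
      (ι k (X - Polynomial.C (v j)))⁻¹ := by
    rw [map_sub]
    rfl
  have h2 : Mq Q κ v i j =
      Polynomial.C (Q i j * κ j) * ∏ m ∈ univ.erase j, (X - Polynomial.C (v m)) := rfl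
  rw [h1, h2, wv_eq v j, map_mul, map_mul, map_mul, map_mul]
  field_simp

theorem NB_poly (Q : Matrix (Fin n) (Fin n) k) (κ v : Fin n → k) {Dk : Der (KX k)}
    (hDk : IsDer Dk) (θ : Matrix (Fin n) (Fin n) k[X]) :
    ι k (wv v) • NB Dk (BqX Q κ v) (θ.map (ι k)) = (wD Q κ v θ).map (ι k) := by
  have hB : ι k (wv v) • BqX Q κ v = (Mq Q κ v).map (ι k) := by
    ext i j
    rw [Matrix.smul_apply, smul_eq_mul, w_Bq, Matrix.map_apply]
  unfold NB wD
  rw [smul_sub, smul_add, ← Matrix.smul_mul, ← Matrix.mul_smul, hB, ← Matrix.map_mul,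
    ← Matrix.map_mul]
  ext i j
  rw [Matrix.sub_apply, Matrix.add_apply, Matrix.smul_apply, Matrix.map_apply, Matrix.map_apply,
    hDk, Matrix.map_apply, Matrix.map_apply, Matrix.map_apply, Matrix.sub_apply, Matrix.add_apply,
    Matrix.smul_apply, map_sub, map_add, smul_eq_mul, smul_eq_mul, map_mul]
  rfl

theorem Mq_eval (Q : Matrix (Fin n) (Fin n) k) (κ v : Fin n → k) (j a b : Fin n) :
    (Mq Q κ v).map (Polynomial.eval (v j)) a b =
      if b = j then Q a j * κ j * (∏ m ∈ univ.erase j, (X - Polynomial.C (v m))).eval (v j)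
      else 0 := by
  rw [Matrix.map_apply]
  show (Polynomial.C (Q a b * κ b) * ∏ m ∈ univ.erase b, (X - Polynomial.C (v m))).eval (v j) = _
  rw [Polynomial.eval_mul, Polynomial.eval_C]
  split_ifs with h
  · rw [h]
  · rw [Polynomial.eval_prod, Finset.prod_eq_zero (i := j), mul_zero]
    · exact Finset.mem_erase.2 ⟨fun h' => h h'.symm, Finset.mem_univ _⟩
    · rw [Polynomial.eval_sub, Polynomial.eval_X, Polynomial.eval_C, sub_self]

theorem Mq_sq (Q : Matrix (Fin n) (Fin n) k) (κ v : Fin n → k) (j : Fin n) (hQ : Q j j = 0) :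
    (Mq Q κ v).map (Polynomial.eval (v j)) * (Mq Q κ v).map (Polynomial.eval (v j)) = 0 := by
  ext a b
  rw [Matrix.mul_apply, Matrix.zero_apply]
  refine Finset.sum_eq_zero fun l _ => ?_
  rw [Mq_eval, Mq_eval]
  split_ifs with h1 h2
  · rw [h1, hQ]
    ring
  · ring
  · ring
  · ring

theorem Mq_tr (Q : Matrix (Fin n) (Fin n) k) (κ v : Fin n → k) (j : Fin n)
    (θ : Matrix (Fin n) (Fin n) k) :
    (θ * (Mq Q κ v).map (Polynomial.eval (v j))).trace =
      (θ * Q) j j * (κ j * (∏ m ∈ univ.erase j, (X - Polynomial.C (v m))).eval (v j)) := by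
  rw [Matrix.trace, Finset.sum_eq_single j]
  · rw [Matrix.diag_apply, Matrix.mul_apply, Matrix.mul_apply, Finset.sum_mul]
    refine Finset.sum_congr rfl fun l _ => ?_
    rw [Mq_eval, if_pos rfl]
    ring
  · intro b _ hb
    rw [Matrix.diag_apply, Matrix.mul_apply]
    refine Finset.sum_eq_zero fun l _ => ?_
    rw [Mq_eval, if_neg hb, mul_zero]
  · intro h
    exact absurd (Finset.mem_univ _) h

theorem skew_diag {Q : Matrix (Fin n) (Fin n) k} (hQ : Qᵀ = -Q) (h2 : (2 : k) ≠ 0) (j : Fin n) :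
    Q j j = 0 := by
  have h1 := congrFun (congrFun hQ j) j
  rw [Matrix.transpose_apply, Matrix.neg_apply] at h1
  have h3 : (2 : k) * Q j j = 0 := by linear_combination h1
  exact (mul_eq_zero.1 h3).resolve_left h2

/-- clearing denominators -/
theorem clear {J : Type} [Finite J] (w : J → KX k) :
    ∃ (d : k[X]) (q : J → k[X]), d ≠ 0 ∧ ∀ j, ι k d * w j = ι k (q j) := by
  classical
  cases nonempty_fintype J
  obtain ⟨b, hb⟩ := IsLocalization.exist_integer_multiples_of_finite (nonZeroDivisors k[X]) w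
  choose r hr using hb
  refine ⟨b, r, nonZeroDivisors.ne_zero b.2, fun j => ?_⟩
  rw [← Algebra.smul_def]
  exact (hr j).symm

end bq

section tr

variable (U : Ultrafilter ℕ) {C : ℕ → Type} [∀ i, Field (C i)] {n : ℕ}

theorem mkM_det (Q : ∀ i, Matrix (Fin n) (Fin n) (C i)) (hQ : ∀ i, (Q i).det ≠ 0) :
    (mkM U Q).det ≠ 0 := by
  intro h
  have h1 : mkM U Q * mkM U (fun i => (Q i)⁻¹) = 1 := by
    rw [← mkM_mul, ← mk_one U (F := C) (n := n)]
    congr 1
    funext i
    exact Matrix.mul_nonsing_inv _ (isUnit_iff_ne_zero.2 (hQ i))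
  have h2 := congrArg Matrix.det h1
  rw [Matrix.det_mul, h, zero_mul, Matrix.det_one] at h2
  exact zero_ne_one h2

theorem ok_up {Q : ∀ i, Matrix (Fin n) (Fin n) (C i)} {κ v : ∀ i, Fin n → C i}
    (hOk : ∀ i, Ok (Q i) (κ i) (v i)) :
    Ok (mkM U Q) (fun j => mk U fun i => κ i j) fun j => mk U fun i => v i j := by
  refine ⟨?_, mkM_det U Q fun i => (hOk i).2.1, ?_, ?_, ?_⟩
  · ext a b
    rw [Matrix.transpose_apply, Matrix.neg_apply, mkM_apply, mkM_apply, ← map_neg]
    congr 1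
    funext i
    exact congrFun (congrFun (hOk i).1 a) b
  · intro a b hab h
    rw [mkM_apply, mk_eq_zero] at h
    obtain ⟨i, hi⟩ := h.exists
    exact (hOk i).2.2.1 a b hab hi
  · intro j h
    rw [mk_eq_zero] at h
    obtain ⟨i, hi⟩ := h.exists
    exact (hOk i).2.2.2.1 j hi
  · intro j l h
    simp only at h
    rw [mk_eq] at h
    obtain ⟨i, hi⟩ := h.exists
    exact (hOk i).2.2.2.2 hi

theorem mk_Rq (Q : ∀ i, Matrix (Fin n) (Fin n) (C i)) (κ : ∀ i, Fin n → C i) :
    mkM U (fun i => Rq (Q i) (κ i)) = Rq (mkM U Q) fun j => mk U fun i => κ i j := by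
  ext a b
  rw [mkM_apply]
  show mk U (fun i => Q i a b * κ i b) = (mk U fun i => Q i a b) * mk U fun i => κ i b
  rw [← map_mul]
  rfl

theorem e1_up {Q : ∀ i, Matrix (Fin n) (Fin n) (C i)} {κ : ∀ i, Fin n → C i} (m : ℕ)
    (h : ∀ᶠ i in (U : Filter ℕ), E1 (Q i) (κ i) m) :
    E1 (mkM U Q) (fun j => mk U fun i => κ i j) m := by
  intro y hy
  choose y' hy' using fun j => mk_surj U (F := C) (y j)
  have h1 : ∀ a, ∀ᶠ i in (U : Filter ℕ),
      (((m : ℕ) : C i) • (fun j => y' j i) + Rq (Q i) (κ i) *ᵥ fun j => y' j i) a = 0 := by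
    intro a
    have h2 := congrFun hy a
    rw [← mk_eq_zero, ← Pi.zero_apply (M := fun _ => UP U C) a, ← h2]
    have h3 : (fun i => (((m : ℕ) : C i) • (fun j => y' j i) +
        Rq (Q i) (κ i) *ᵥ fun j => y' j i) a) =
        ((m : ℕ) : ∀ i, C i) * y' a + fun i => ∑ l, (fun i => Rq (Q i) (κ i) a l * y' l i) i := by
      funext i
      simp [Matrix.mulVec, dotProduct]
    rw [h3, map_add, map_mul, map_natCast, mk_sum, hy', Pi.add_apply, Pi.smul_apply, smul_eq_mul,
      ← mk_Rq]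
    congr 1
    refine Finset.sum_congr rfl fun l _ => ?_
    show _ = mk U (fun i => Rq (Q i) (κ i) a l) * y l
    rw [← hy' l, ← map_mul]
    rfl
  have h4 : ∀ᶠ i in (U : Filter ℕ), (fun j => y' j i) = 0 := by
    filter_upwards [Filter.eventually_all.2 h1, h] with i h2 h3
    exact h3 _ (funext h2)
  funext j
  rw [← hy' j, Pi.zero_apply, mk_eq_zero]
  filter_upwards [h4] with i hi
  exact congrFun hi j

theorem e2_up {Q : ∀ i, Matrix (Fin n) (Fin n) (C i)} {κ : ∀ i, Fin n → C i} (m : ℕ)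
    (h : ∀ᶠ i in (U : Filter ℕ), E2 (Q i) (κ i) m) :
    E2 (mkM U Q) (fun j => mk U fun i => κ i j) m := by
  intro Y hY
  obtain ⟨Y', rfl⟩ := mkM_surj U Y
  have h1 : ((m : ℕ) : UP U C) • mkM U Y' = mkM U fun i => ((m : ℕ) : C i) • Y' i := by
    ext a b
    rw [Matrix.smul_apply, mkM_apply, mkM_apply, smul_eq_mul, ← map_natCast (mk U (F := C)),
      ← map_mul]
    rfl
  have h2 : mkM U (fun i => ((m : ℕ) : C i) • Y' i + Rq (Q i) (κ i) * Y' i -
      Y' i * Rq (Q i) (κ i)) = mkM U fun i => (0 : Matrix (Fin n) (Fin n) (C i)) := by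
    rw [BM.mk_zero, ← hY, h1, ← mk_Rq, ← mkM_mul, ← mkM_mul, ← mkM_add]
    ext a b
    rw [Matrix.sub_apply, mkM_apply, mkM_apply, mkM_apply, ← map_sub]
    rfl
  rw [mkM_eq] at h2
  rw [← BM.mk_zero U, mkM_eq]
  filter_upwards [h, h2] with i h3 h4
  exact h3 _ h4

end tr

end Pool.Agent.Helper61.BL
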