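import Pool.Agent.Helper61.BL.LConB

/-!
# Package L7: the conclusion of the Lie algebra argument
-/

set_option autoImplicit false

open Polynomial Matrix Finset Filter

namespace Pool.Agent.Helper61.BL

open Pool.Agent.Helper62.BM Pool.Agent.Helper90.BM Pool.Agent.Helper61.BM

section one

variable {k : Type} [Field k] {n : ℕ}

/-- The field of fractions of the power series. -/
abbrev LX (k : Type) [Field k] : Type := FractionRing (PowerSeries k)

/-- the embedding of the power series -/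
noncomputable abbrev al (k : Type) [Field k] : PowerSeries k →+* LX k :=
  algebraMap (PowerSeries k) (LX k)

theorem al_inj : Function.Injective (al k) := IsFractionRing.injective (PowerSeries k) (LX k)

/-- the expansion of rational functions -/
noncomputable def ell (c : k) : KX k →+* LX k :=
  IsFractionRing.lift (K := KX k) (g := (al k).comp (tay c)) (al_inj.comp (tay_inj c))

theorem ell_ι (c : k) (q : k[X]) : ell c (ι k q) = al k (tay c q) :=
  IsFractionRing.lift_algebraMap (K := KX k) (g := (al k).comp (tay c)) (al_inj.comp (tay_inj c)) q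

/-- The trace against the rank one matrix. -/
theorem tr_ell (x ξ : Fin n → PowerSeries k) (M : Matrix (Fin n) (Fin n) (LX k)) :
    (M * Matrix.vecMulVec (fun i => al k (x i)) fun i => al k (ξ i)).trace =
      (fun i => al k (ξ i)) ⬝ᵥ (M *ᵥ fun i => al k (x i)) := by
  rw [Matrix.mul_vecMulVec, Matrix.trace_vecMulVec, dotProduct_comm]

theorem tr_poly (c : k) (x ξ : Fin n → PowerSeries k) (θ : Matrix (Fin n) (Fin n) k[X]) :
    (((θ.map (ι k)).map (ell c)) * Matrix.vecMulVec (fun i => al k (x i))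
      fun i => al k (ξ i)).trace = al k (ξ ⬝ᵥ (θ.map (tay c) *ᵥ x)) := by
  have h1 : (θ.map (ι k)).map (ell c) = (θ.map (tay c)).map (al k) :=
    Matrix.ext fun a b => by simp only [Matrix.map_apply, ell_ι]
  rw [tr_ell, RingHom.map_dotProduct, h1]
  congr 1
  funext i
  rw [Function.comp_apply, RingHom.map_mulVec]
  rfl

/-- The subspace of the matrices orthogonal to `ψ`. -/
def Orth {K L : Type} [Field K] [Field L] (f : K →+* L) (ψ : Matrix (Fin n) (Fin n) L) :
    Submodule K (Matrix (Fin n) (Fin n) K) where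
  carrier := {θ | (θ.map f * ψ).trace = 0}
  add_mem' {a b} ha hb := by
    show ((a + b).map f * ψ).trace = 0
    rw [Matrix.map_add _ (map_add f), Matrix.add_mul, Matrix.trace_add, ha, hb, add_zero]
  zero_mem' := by
    show ((0 : Matrix (Fin n) (Fin n) K).map f * ψ).trace = 0
    rw [Matrix.map_zero _ (map_zero f), Matrix.zero_mul, Matrix.trace_zero]
  smul_mem' c a ha := by
    show ((c • a).map f * ψ).trace = 0
    have : (c • a).map f = f c • a.map f := by
      ext i j
      simp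
    rw [this, Matrix.smul_mul, Matrix.trace_smul, ha, smul_zero]

theorem mem_Orth {K L : Type} [Field K] [Field L] (f : K →+* L) (ψ : Matrix (Fin n) (Fin n) L)
    (θ : Matrix (Fin n) (Fin n) K) : θ ∈ Orth f ψ ↔ (θ.map f * ψ).trace = 0 := Iff.rfl

/-- clearing denominators of a matrix -/
theorem clearM (θ : Matrix (Fin n) (Fin n) (KX k)) :
    ∃ (d : k[X]) (θ' : Matrix (Fin n) (Fin n) k[X]), d ≠ 0 ∧ ι k d • θ = θ'.map (ι k) := by
  obtain ⟨d, q, hd, hq⟩ := clear fun s : Fin n × Fin n => θ s.1 s.2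
  refine ⟨d, Matrix.of fun i j => q (i, j), hd, ?_⟩
  ext i j
  exact hq (i, j)

theorem mem_of_smul {W : Submodule (KX k) (Matrix (Fin n) (Fin n) (KX k))} {d : k[X]} (hd : d ≠ 0)
    {θ : Matrix (Fin n) (Fin n) (KX k)} (h : ι k d • θ ∈ W) : θ ∈ W := by
  have h0 : ι k d ≠ 0 := fun h => hd (ι_inj (h.trans (map_zero _).symm))
  have := W.smul_mem (ι k d)⁻¹ h
  rwa [smul_smul, inv_mul_cancel₀ h0, one_smul] at this

/-- The relations of `X_j = x ξᵀ` are stable under the connection. -/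
theorem orth_stable {Q : Matrix (Fin n) (Fin n) k} {κ v : Fin n → k} (hQ : Qᵀ = -Q)
    (hQd : Q.det ≠ 0) {c : k} {x : Fin n → PowerSeries k} (hx : IsHor Q κ v c x)
    {Dk : Der (KX k)} (hDk : IsDer Dk) :
    ∀ θ ∈ Orth (ell c) (Matrix.vecMulVec (fun i => al k (x i)) fun i => al k (xi Q x i)),
      NB Dk (BqX Q κ v) θ ∈
        Orth (ell c) (Matrix.vecMulVec (fun i => al k (x i)) fun i => al k (xi Q x i)) := by
  intro θ hθ
  set W := Orth (ell c) (Matrix.vecMulVec (fun i => al k (x i)) fun i => al k (xi Q x i)) with hW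
  obtain ⟨d, θ', hd, hdθ⟩ := clearM θ
  have h1 : θ'.map (ι k) ∈ W := hdθ ▸ W.smul_mem _ hθ
  have h2 : xi Q x ⬝ᵥ (θ'.map (tay c) *ᵥ x) = 0 := by
    apply al_inj
    rw [map_zero, ← tr_poly]
    exact h1
  have h3 : (wD Q κ v θ').map (ι k) ∈ W := by
    rw [hW, mem_Orth, tr_poly, ← star hQ hQd hx, h2, map_zero, mul_zero, map_zero]
  rw [← NB_poly Q κ v hDk] at h3
  have h4 := mem_of_smul (wv_ne v) h3
  rw [← hdθ, NB_smul] at h4
  have h5 := W.sub_mem h4 (W.smul_mem (Dk (ι k d)) hθ)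
  rw [add_sub_cancel_left] at h5
  exact mem_of_smul hd h5

/-- the trace is stable -/
theorem orth_stable_f {K L : Type} [Field K] [Field L] (f : K →+* L) (Dk : Der K) (D : Der L)
    (hf : ∀ z, f (Dk z) = D (f z)) (Bk : Matrix (Fin n) (Fin n) K) (ψ : Matrix (Fin n) (Fin n) L)
    (hNψ : NB D (Bk.map f) ψ = 0) : ∀ θ ∈ Orth f ψ, NB Dk Bk θ ∈ Orth f ψ := by
  intro θ₁ h1
  rw [mem_Orth]
  have e : (NB Dk Bk θ₁).map f = NB D (Bk.map f) (θ₁.map f) := by
    unfold NB
    rw [← Matrix.map_mul, ← Matrix.map_mul]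
    ext i j
    simp only [Matrix.map_apply, Matrix.sub_apply, Matrix.add_apply, map_sub, map_add, hf]
  rw [e]
  have e2 := trace_NB D (Bk.map f) (θ₁.map f * ψ)
  rw [NB_mul, hNψ, Matrix.mul_zero, add_zero] at e2
  rw [e2, (mem_Orth f ψ θ₁).1 h1, map_zero]

theorem tr_comm {L : Type} [Field L] (M N ψ : Matrix (Fin n) (Fin n) L) :
    ((ψ * M - M * ψ) * N).trace = ((M * N - N * M) * ψ).trace := by
  have h1 : (ψ * M * N).trace = (M * N * ψ).trace := by
    rw [Matrix.mul_assoc, Matrix.trace_mul_comm]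
  have h2 : (M * ψ * N).trace = (N * M * ψ).trace := by
    rw [Matrix.trace_mul_comm (M * ψ) N, Matrix.mul_assoc]
  rw [Matrix.sub_mul, Matrix.sub_mul, Matrix.trace_sub, Matrix.trace_sub, h1, h2]

/-- The closure property passes from `φ` to `X`. -/
theorem closure {K L L' : Type} [Field K] [Field L] [Field L'] (f : K →+* L') (ℓ : K →+* L)
    (φ : Matrix (Fin n) (Fin n) L') (X' : Matrix (Fin n) (Fin n) L)
    (hle : Orth f φ ≤ Orth ℓ X') (θ₁ : Matrix (Fin n) (Fin n) K)
    (hW : φ * θ₁.map f - θ₁.map f * φ ∈ Submodule.span L' {η : Matrix (Fin n) (Fin n) L' |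
      ∃ θ ∈ Orth ℓ X', η = θ.map f}) :
    X' * θ₁.map ℓ - θ₁.map ℓ * X' ∈ Submodule.span L {η : Matrix (Fin n) (Fin n) L |
      ∃ θ ∈ Orth ℓ X', η = θ.map ℓ} := by
  refine double_ann ℓ (Orth ℓ X') _ fun B hB => ?_
  have h1 : ∀ η ∈ Submodule.span L' {η : Matrix (Fin n) (Fin n) L' |
      ∃ θ ∈ Orth ℓ X', η = θ.map f}, (η * B.map f).trace = 0 := by
    intro η hη
    induction hη using Submodule.span_induction with
    | mem η h =>
      obtain ⟨θ₂, h2, rfl⟩ := h
      rw [← Matrix.map_mul]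
      have h3 := hB θ₂ h2
      have h4 : ((θ₂ * B).map f).trace = f (θ₂ * B).trace := by
        rw [Matrix.trace, Matrix.trace, map_sum]
        rfl
      rw [h4, h3, map_zero]
    | zero => rw [Matrix.zero_mul, Matrix.trace_zero]
    | add y z _ _ hy hz => rw [Matrix.add_mul, Matrix.trace_add, hy, hz, add_zero]
    | smul r y _ hy => rw [Matrix.smul_mul, Matrix.trace_smul, hy, smul_zero]
  have h2 := h1 _ hW
  have h4 : θ₁ * B - B * θ₁ ∈ Orth f φ := by
    rw [mem_Orth]
    rw [tr_comm] at h2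
    have h5 : (θ₁ * B - B * θ₁).map f = θ₁.map f * B.map f - B.map f * θ₁.map f := by
      rw [Matrix.map_sub _ (map_sub f), Matrix.map_mul, Matrix.map_mul]
    rw [h5]
    exact h2
  have h6 := (mem_Orth _ _ _).1 (hle h4)
  have h7 : (θ₁ * B - B * θ₁).map ℓ = θ₁.map ℓ * B.map ℓ - B.map ℓ * θ₁.map ℓ := by
    rw [Matrix.map_sub _ (map_sub ℓ), Matrix.map_mul, Matrix.map_mul]
  rw [h7, ← tr_comm] at h6
  exact h6

theorem smul_map (q : k[X]) (a : Matrix (Fin n) (Fin n) k[X]) :
    (q • a).map (ι k) = ι k q • a.map (ι k) := by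
  ext i j
  simp

/-- The polynomial matrices in a subspace. -/
noncomputable def PolyM (W : Submodule (KX k) (Matrix (Fin n) (Fin n) (KX k))) :
    Submodule k[X] (Matrix (Fin n) (Fin n) k[X]) where
  carrier := {η | η.map (ι k) ∈ W}
  add_mem' := by
    intro a b ha hb
    show (a + b).map (ι k) ∈ W
    rw [Matrix.map_add _ (map_add _)]
    exact W.add_mem ha hb
  zero_mem' := by
    show (0 : Matrix (Fin n) (Fin n) k[X]).map (ι k) ∈ W
    rw [Matrix.map_zero _ (map_zero _)]
    exact W.zero_mem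
  smul_mem' := by
    intro q a ha
    show (q • a).map (ι k) ∈ W
    rw [smul_map]
    exact W.smul_mem _ ha

theorem mem_PolyM (W : Submodule (KX k) (Matrix (Fin n) (Fin n) (KX k)))
    (η : Matrix (Fin n) (Fin n) k[X]) : η ∈ PolyM W ↔ η.map (ι k) ∈ W := Iff.rfl

end one

/-- The algebraic part. -/
theorem core1 (hPS : L_PS) (hLI : L_LI) (hComm : L_Comm) (hVan : L_Van)
    (hLie : S_Lie) (g : ℕ) (hg : 1 ≤ g) (k : Type) [Field k] [CharZero k]
    (Q : Matrix (Fin (2 * g)) (Fin (2 * g)) k) (κ v : Fin (2 * g) → k) (hOk : Ok Q κ v)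
    (hE1 : ∀ m : ℕ, E1 Q κ m) (hE2 : ∀ m : ℕ, 1 ≤ m → E2 Q κ m)
    (L' : Type) [Field L'] (f : KX k →+* L') (Dk : Der (KX k)) (hDk : IsDer Dk) (D : Der L')
    (hfD : ∀ z, f (Dk z) = D (f z)) (φ : Matrix (Fin (2 * g)) (Fin (2 * g)) L')
    (hNφ : NB D ((BqX Q κ v).map f) φ = 0)
    (hdpm : ∀ W : Submodule L' (Matrix (Fin (2 * g)) (Fin (2 * g)) L'),
      (∀ η ∈ W, NB D ((BqX Q κ v).map f) η ∈ W) → ∀ η ∈ W, φ * η - η * φ ∈ W)
    (j : Fin (2 * g))
    (hval : ∀ η : Matrix (Fin (2 * g)) (Fin (2 * g)) k[X], ((η.map (ι k)).map f * φ).trace = 0 →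
      (η.map (Polynomial.eval (v j)) * Q) j j = 0)
    (A : Matrix (Fin (2 * g)) (Fin (2 * g)) (KX k))
    (hA : A * Q.map (cst k) + Q.map (cst k) * Aᵀ = 0)
    (θ : Matrix (Fin (2 * g)) (Fin (2 * g)) (KX k))
    (hθ : (θ.map f * φ).trace = 0) :
    (θ * A).trace = 0 := by
  classical
  obtain ⟨hQs, hQd, hQn, hκn, hvi⟩ := hOk
  set T0 := Orth f φ with hT0
  have hT0st : ∀ θ ∈ T0, NB Dk (BqX Q κ v) θ ∈ T0 := orth_stable_f f Dk D hfD _ φ hNφ
  -- the horizontal vector
  have hQjj : Q j j = 0 := skew_diag hQs two_ne_zero j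
  obtain ⟨x, hx0, hx⟩ : ∃ x : Fin (2 * g) → PowerSeries k,
      (∀ a, PowerSeries.constantCoeff (x a) = Q a j) ∧ IsHor Q κ v (v j) x := by
    obtain ⟨x, h1, h2⟩ := hPS k (2 * g) (Mq Q κ v)
      (∏ m ∈ univ.erase j, (X - Polynomial.C (v m))) (v j) (ev_erase hvi j)
      (Mq_sq Q κ v j hQjj) (fun a => Q a j) (by
        funext a
        rw [Matrix.mulVec, dotProduct, Pi.zero_apply]
        refine Finset.sum_eq_zero fun l _ => ?_
        rw [Mq_eval]
        split_ifs with h
        · rw [h, hQjj, mul_zero]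
        · rw [zero_mul])
    refine ⟨x, h1, ?_⟩
    intro a
    rw [wv_eq v j]
    exact h2 a
  set ξ := xi Q x with hξ
  have hξj : PowerSeries.constantCoeff (ξ j) = 1 := by
    have h1 : ξ j = ∑ b, PowerSeries.C (Q⁻¹ j b) * x b := rfl
    rw [h1, map_sum]
    have h2 : ∀ b, PowerSeries.constantCoeff (PowerSeries.C (Q⁻¹ j b) * x b) =
        Q⁻¹ j b * Q b j := by
      intro b
      rw [map_mul, PowerSeries.constantCoeff_C, hx0]
    simp only [h2]
    rw [← Matrix.mul_apply, Matrix.nonsing_inv_mul _ (isUnit_iff_ne_zero.2 hQd),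
      Matrix.one_apply_eq]
  have hξj0 : ξ j ≠ 0 := fun h => by
    rw [h, map_zero] at hξj
    exact zero_ne_one hξj
  obtain ⟨a0, ha0⟩ : ∃ a0 : Fin (2 * g), a0 ≠ j := by
    have : Nontrivial (Fin (2 * g)) := Fin.nontrivial_iff_two_le.2 (by omega)
    exact exists_ne j
  have hxa0 : x a0 ≠ 0 := fun h => by
    have := hx0 a0
    rw [h, map_zero] at this
    exact hQn a0 j ha0 this.symm
  -- the polynomial relations of `φ` are relations of `X_j`
  have hvan : ∀ η ∈ PolyM T0, ξ ⬝ᵥ (η.map (tay (v j)) *ᵥ x) = 0 := by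
    refine hVan k (2 * g) Q κ v ⟨hQs, hQd, hQn, hκn, hvi⟩ j x hx hx0 (PolyM T0) ?_ ?_ ?_
    · intro η hη
      rw [mem_PolyM, ← NB_poly Q κ v hDk]
      exact T0.smul_mem _ (hT0st _ hη)
    · intro η hη
      rw [mem_PolyM, smul_map] at hη
      exact mem_of_smul (Polynomial.X_sub_C_ne_zero _) hη
    · intro η hη
      exact hval η ((mem_Orth f φ _).1 hη)
  -- the rank one matrix
  set c := v j with hc
  set X' : Matrix (Fin (2 * g)) (Fin (2 * g)) (LX k) :=
    Matrix.vecMulVec (fun i => al k (x i)) (fun i => al k (ξ i)) with hX'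
  set TJ := Orth (ell c) X' with hTJ
  have hTJst : ∀ θ ∈ TJ, NB Dk (BqX Q κ v) θ ∈ TJ := orth_stable hQs hQd hx hDk
  have hle : T0 ≤ TJ := by
    intro θ₁ h1
    obtain ⟨d, θ', hd, hdθ⟩ := clearM θ₁
    have h2 : θ' ∈ PolyM T0 := by
      rw [mem_PolyM, ← hdθ]
      exact T0.smul_mem _ h1
    have h3 : θ'.map (ι k) ∈ TJ := by
      rw [hTJ, mem_Orth, hX', tr_poly, hvan θ' h2, map_zero]
    rw [← hdθ] at h3
    exact mem_of_smul hd h3
  letI : Algebra (KX k) (LX k) := (ell c).toAlgebra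
  have hal : ∀ q : k, ell c (cst k q) = al k (PowerSeries.C q) := by
    intro q
    show ell c (ι _ (Polynomial.C q)) = _
    rw [ell_ι, tay_C]
  refine hLie (KX k) (LX k) (2 * g) (Q.map (cst k)) X' (by omega) ?_ ?_
    ⟨_, _, rfl⟩ ?_ ?_ ?_ ?_ ?_ A hA θ ((mem_Orth _ _ θ).1 (hle ((mem_Orth f φ θ).2 hθ)))
  · -- skew
    rw [← Matrix.transpose_map, hQs]
    ext a b
    simp only [Matrix.map_apply, Matrix.neg_apply, map_neg]
  · -- determinant
    have h1 := RingHom.map_det (cst k) Q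
    rw [RingHom.mapMatrix_apply] at h1
    rw [← h1]
    exact fun h => hQd ((map_eq_zero _).1 h)
  · -- not zero
    intro h
    have h1 := congrFun (congrFun h a0) j
    rw [hX', Matrix.vecMulVec_apply, Matrix.zero_apply, ← map_mul] at h1
    exact mul_ne_zero hxa0 hξj0 (al_inj (h1.trans (map_zero _).symm))
  · -- the form
    have h1 : ((Q.map (cst k)).map (algebraMap (KX k) (LX k))) =
        (Q.map (PowerSeries.C (R := k))).map (al k) := by
      ext a b
      simp only [Matrix.map_apply]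
      exact hal _
    have hxx : x = Q.map (PowerSeries.C (R := k)) *ᵥ ξ := by
      have h2 : ξ = (Q⁻¹).map (PowerSeries.C (R := k)) *ᵥ x := rfl
      rw [h2, Matrix.mulVec_mulVec, ← Matrix.map_mul,
        Matrix.mul_nonsing_inv _ (isUnit_iff_ne_zero.2 hQd),
        Matrix.map_one _ (map_zero _) (map_one _), Matrix.one_mulVec]
    have h2 : (Q.map (PowerSeries.C (R := k))).map (al k) *ᵥ
        (fun i => al k (ξ i)) = fun i => al k (x i) := by
      funext i
      conv_rhs => rw [hxx]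
      rw [RingHom.map_mulVec]
      rfl
    have h3 : (fun i => al k (ξ i)) ᵥ*
        (Q.map (PowerSeries.C (R := k))).map (al k) =
        -fun i => al k (x i) := by
      rw [← h2, ← Matrix.mulVec_transpose, ← Matrix.transpose_map, ← Matrix.transpose_map, hQs,
        ← Matrix.neg_mulVec]
      congr 1
      ext a b
      simp
    rw [h1, hX', Matrix.transpose_vecMulVec, Matrix.vecMulVec_mul, Matrix.mul_vecMulVec, h2, h3]
    ext a b
    rw [Matrix.add_apply, Matrix.vecMulVec_apply, Matrix.vecMulVec_apply, Pi.neg_apply,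
      Matrix.zero_apply]
    ring
  · -- kernel
    intro w hw
    obtain ⟨d, q, hd, hq⟩ := clear w
    have h1 : ∑ a, tay c (q a) * ξ a = 0 := by
      have h2 : X' *ᵥ (fun i => ell c (ι _ (q i))) = 0 := by
        have h3 : (fun i => ell c (ι _ (q i))) =
            ell c (ι _ d) • fun i => algebraMap (KX k) (LX k) (w i) := by
          funext i
          rw [← hq i, map_mul]
          rfl
        rw [h3, Matrix.mulVec_smul, hw, smul_zero]
      have h4 := congrFun h2 a0
      have h5 : (X' *ᵥ (fun i => ell c (ι _ (q i)))) a0 =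
          al k (x a0 * ∑ a, tay c (q a) * ξ a) := by
        rw [map_mul, map_sum, Matrix.mulVec, dotProduct, Finset.mul_sum]
        refine Finset.sum_congr rfl fun l _ => ?_
        rw [hX', Matrix.vecMulVec_apply, ell_ι, map_mul]
        ring
      rw [h5, Pi.zero_apply] at h4
      exact (mul_eq_zero.1 (al_inj (h4.trans (map_zero _).symm))).resolve_left hxa0
    have h2 := hLI k (2 * g) Q κ v ⟨hQs, hQd, hQn, hκn, hvi⟩ hE1 hE2 j x hx hx0 q h1
    funext i
    have h3 := hq i
    rw [h2, Pi.zero_apply, map_zero] at h3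
    exact (mul_eq_zero.1 h3).resolve_left fun h => hd (ι_inj (h.trans (map_zero _).symm))
  · -- commutant
    intro y hy
    obtain ⟨d, y', hd, hdy⟩ := clearM y
    have h0 : ι k d ≠ 0 := fun h => hd (ι_inj (h.trans (map_zero _).symm))
    have h1 : y'.map (tay c) * Matrix.vecMulVec x ξ = Matrix.vecMulVec x ξ * y'.map (tay c) := by
      have h2 : (y'.map (ι k)).map (ell c) * X' = X' * (y'.map (ι k)).map (ell c) := by
        rw [← hdy]
        have h3 : (ι k d • y).map (ell c) = ell c (ι _ d) • y.map (ell c) :=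
          Matrix.ext fun a b => map_mul (ell c) _ _
        rw [h3, Matrix.smul_mul, Matrix.mul_smul]
        congr 1
      have h4 : X' = (Matrix.vecMulVec x ξ).map (al k) := by
        ext a b
        rw [hX', Matrix.map_apply, Matrix.vecMulVec_apply, Matrix.vecMulVec_apply, map_mul]
      have h5 : (y'.map (ι k)).map (ell c) = (y'.map (tay c)).map (al k) := by
        ext a b
        simp only [Matrix.map_apply, ell_ι]
      rw [h4, h5, ← Matrix.map_mul, ← Matrix.map_mul] at h2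
      exact Matrix.ext fun a b => al_inj (congrFun (congrFun h2 a) b)
    obtain ⟨q, hq⟩ := hComm k (2 * g) Q κ v ⟨hQs, hQd, hQn, hκn, hvi⟩ hE1 hE2 j x hx
      hx0 y' h1
    refine ⟨(ι _ d)⁻¹ * ι _ q, ?_⟩
    ext a b
    have h2 := congrFun (congrFun hdy a) b
    rw [Matrix.smul_apply, Matrix.map_apply, hq, smul_eq_mul] at h2
    by_cases hab : a = b
    · subst hab
      rw [Matrix.diagonal_apply_eq] at h2 ⊢
      rw [← h2, inv_mul_cancel_left₀ h0]
    · rw [Matrix.diagonal_apply_ne _ hab] at h2 ⊢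
      rw [map_zero] at h2
      exact (mul_eq_zero.1 h2).resolve_left h0
  · -- the span is stable
    intro θ₁ hθ₁
    have hθ₁' : θ₁ ∈ TJ := (mem_Orth _ _ θ₁).2 hθ₁
    exact closure f (ell c) φ X' hle θ₁
      (hdpm _ (span_stable f Dk D hfD (BqX Q κ v) TJ hTJst) _
        (Submodule.subset_span ⟨θ₁, hθ₁', rfl⟩))

end Pool.Agent.Helper61.BL
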